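import Pool.Agent.Y251.LT.Stm

/-! Project LT, job TRA (helper244): no essential singularity, assembly. -/

set_option autoImplicit false

open MeasureTheory Complex Metric Set Filter Topology
open scoped Real ComplexConjugate

namespace Pool.Agent.Y244.LT

open Pool.Agent.Y251.LT

theorem deriv_loc {g p : ℂ → ℂ} {ζ₁ : ℂ} {q : ℝ} (hp : Loc q p)
    (h : ∀ u : ℂ, ‖u‖ < 1 / q ^ 6 →
      g (ζ₁ + u) = g ζ₁ * (Complex.exp ((q : ℂ) ^ 8 * u) * (1 + p u)))
    (u : ℂ) (hu : ‖u‖ < 1 / q ^ 6) :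
    deriv g (ζ₁ + u) =
      g ζ₁ * Complex.exp ((q : ℂ) ^ 8 * u) * ((q : ℂ) ^ 8 * (1 + p u) + deriv p u) := by
  have hmem : u ∈ ball (0 : ℂ) (1 / q ^ 6) := by simpa using hu
  have hpd : HasDerivAt p (deriv p u) u :=
    ((hp.diff u hmem).differentiableAt (isOpen_ball.mem_nhds hmem)).hasDerivAt
  have e1 : (fun v : ℂ => g (ζ₁ + v)) =ᶠ[𝓝 u]
      fun v => g ζ₁ * (Complex.exp ((q : ℂ) ^ 8 * v) * (1 + p v)) := by
    filter_upwards [isOpen_ball.mem_nhds hmem] with v hv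
    exact h v (by simpa using hv)
  have h2 : HasDerivAt (fun v : ℂ => Complex.exp ((q : ℂ) ^ 8 * v))
      (Complex.exp ((q : ℂ) ^ 8 * u) * ((q : ℂ) ^ 8 * 1)) u :=
    ((hasDerivAt_id u).const_mul ((q : ℂ) ^ 8)).cexp
  have h3 : HasDerivAt (fun v : ℂ => g ζ₁ * (Complex.exp ((q : ℂ) ^ 8 * v) * (1 + p v)))
      (g ζ₁ * (Complex.exp ((q : ℂ) ^ 8 * u) * ((q : ℂ) ^ 8 * 1) * (1 + p u) +
        Complex.exp ((q : ℂ) ^ 8 * u) * deriv p u)) u :=
    (h2.mul (hpd.const_add 1)).const_mul _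
  have e2 : deriv g (ζ₁ + u) = deriv (fun v : ℂ => g (ζ₁ + v)) u := by
    rw [deriv_comp_const_add]
  rw [e2, e1.deriv_eq, h3.deriv]
  ring

/-- numerical facts -/
theorem num1 {q : ℝ} (hq : 10 ^ 8 ≤ q) : 1 ≤ (1 - 100 / q ^ 5) * Real.exp (1 / q ^ 3) := by
  have hq0 : 0 < q := by linarith [show (0:ℝ) < 10 ^ 8 by norm_num]
  have h1 := Real.add_one_le_exp (1 / q ^ 3)
  have h2 : 0 ≤ 1 - 100 / q ^ 5 := by
    rw [sub_nonneg, div_le_one (by positivity)]
    calc (100 : ℝ) ≤ (10 ^ 8) ^ 5 := by norm_num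
      _ ≤ q ^ 5 := pow_le_pow_left₀ (by norm_num) hq 5
  refine le_trans ?_ (mul_le_mul_of_nonneg_left h1 h2)
  have e : (1 - 100 / q ^ 5) * (1 / q ^ 3 + 1) - 1 = (q ^ 5 - 100 * q ^ 3 - 100) / q ^ 8 := by
    field_simp; ring
  have h3 : 0 ≤ q ^ 5 - 100 * q ^ 3 - 100 := by
    have a1 : (101 : ℝ) ≤ q ^ 2 := by nlinarith
    have a2 : (1 : ℝ) ≤ q ^ 3 := one_le_pow₀ (by linarith [show (1:ℝ) ≤ 10 ^ 8 by norm_num])
    nlinarith [mul_le_mul_of_nonneg_right a1 (by positivity : (0:ℝ) ≤ q ^ 3)]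
  have h4 : 0 ≤ (q ^ 5 - 100 * q ^ 3 - 100) / q ^ 8 := div_nonneg h3 (by positivity)
  linarith

theorem num2 {q : ℝ} (hq : 10 ^ 8 ≤ q) : 32 * q ^ 3 ≤ q ^ 8 / 2 := by
  have hq0 : 0 < q := by linarith [show (0:ℝ) < 10 ^ 8 by norm_num]
  have a1 : (64 : ℝ) ≤ q ^ 5 := by
    calc (64 : ℝ) ≤ (10 ^ 8) ^ 5 := by norm_num
      _ ≤ q ^ 5 := pow_le_pow_left₀ (by norm_num) hq 5
  nlinarith [mul_le_mul_of_nonneg_right a1 (by positivity : (0:ℝ) ≤ q ^ 3)]

theorem num3 {q : ℝ} (hq : 10 ^ 8 ≤ q) : 100 / q ^ 5 ≤ 1 / 2 := by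
  have hq0 : 0 < q := by linarith [show (0:ℝ) < 10 ^ 8 by norm_num]
  rw [div_le_iff₀ (by positivity)]
  have : (200 : ℝ) ≤ q ^ 5 := by
    calc (200 : ℝ) ≤ (10 ^ 8) ^ 5 := by norm_num
      _ ≤ q ^ 5 := pow_le_pow_left₀ (by norm_num) hq 5
  linarith

theorem num4 {q : ℝ} (hq : 10 ^ 8 ≤ q) :
    1 / ((1 - 100 / q ^ 5) * (q ^ 8 - 32 * q ^ 3)) ≤ 1 / q ^ 8 * (1 + 1000 / q ^ 5) := by
  have hq0 : 0 < q := by linarith [show (0:ℝ) < 10 ^ 8 by norm_num]
  have h2 := num2 hq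
  have h3 := num3 hq
  have h8 : 0 < q ^ 8 := by positivity
  have h5 : 0 < (1 - 100 / q ^ 5) * (q ^ 8 - 32 * q ^ 3) :=
    mul_pos (by linarith) (by linarith)
  rw [div_le_iff₀ h5]
  set e : ℝ := 1 / q ^ 5 with he
  have he0 : 0 < e := by positivity
  have he1 : e ≤ 1 / 1000 := by
    rw [he]
    apply one_div_le_one_div_of_le (by norm_num)
    calc (1000 : ℝ) ≤ (10 ^ 8) ^ 5 := by norm_num
      _ ≤ q ^ 5 := pow_le_pow_left₀ (by norm_num) hq 5
  have e1 : 1 / q ^ 8 * (1 + 1000 / q ^ 5) * ((1 - 100 / q ^ 5) * (q ^ 8 - 32 * q ^ 3)) =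
      (1 + 1000 * e) * ((1 - 100 * e) * (1 - 32 * e)) := by
    rw [he]; field_simp
  rw [e1]
  nlinarith [mul_pos he0 he0, mul_pos (mul_pos he0 he0) he0]

theorem tra (h1 : S_BC) (h2 : S_GR) (h3 : S_LOC) (h4 : S_CH) (h5 : S_SAD) : S_TRA := by
  intro g t₀ κ hg hκ hv
  by_cases hz : ∃ ζ : ℂ, t₀ < ζ.re ∧ g ζ ≠ 0
  swap
  · refine ⟨0, 0, fun ζ hζ => ?_⟩
    have : g ζ = 0 := by
      by_contra hne
      exact hz ⟨ζ, by linarith, hne⟩
    rw [this, norm_zero]; positivity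
  obtain ⟨B, hconv, hup, hatt⟩ := h1 g t₀ hg hz
  by_contra hcon
  have hun : ∀ C N : ℝ, ∃ t : ℝ, t₀ + 1 < t ∧ C + N * t < B t := by
    intro C N
    by_contra hno
    push Not at hno
    refine hcon ⟨C, N, fun ζ hζ => ?_⟩
    exact (hup ζ (by linarith)).trans (Real.exp_le_exp.2 (hno ζ.re hζ))
  obtain ⟨t, q, ht, hq0', hq1, hq100, hgr⟩ := h2 B t₀ hconv hun (max (10 ^ 8) (4 / κ + 4))
  have hq : (10 : ℝ) ^ 8 ≤ q := (le_max_left _ _).trans hq0'
  have hqκ : 4 / κ + 4 ≤ q := (le_max_right _ _).trans hq0'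
  have hq0 : 0 < q := by linarith
  have ht0 : t₀ < t := by linarith
  obtain ⟨ζ₁, hζt, hAl, hlow, hmax⟩ := h4 g B t₀ t q hg ht
    (by linarith [show (100:ℝ) ≤ 10 ^ 8 by norm_num]) hup (hatt t ht0) hgr
  have hn1 := num1 hq
  have hn2 := num2 hq
  have hn3 := num3 hq
  have hn4 := num4 hq
  have hMpos : 0 < ‖g ζ₁‖ := by
    refine lt_of_lt_of_le ?_ hlow
    exact mul_pos (Real.exp_pos _) (by linarith)
  have hg1 : g ζ₁ ≠ 0 := norm_pos_iff.1 hMpos
  have hr6 : 1 / q ^ 6 ≤ 1 := by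
    rw [div_le_one (by positivity)]
    exact one_le_pow₀ hq1
  have hre : ∀ u : ℂ, ‖u‖ < 1 / q ^ 6 → t₀ < (ζ₁ + u).re := by
    intro u hu
    have := (abs_le.1 (Complex.abs_re_le_norm u)).1
    simp only [Complex.add_re, hζt]
    linarith
  -- local form
  obtain ⟨p, hp, hloc⟩ := h3 g ζ₁ q (by linarith [show (10:ℝ) ≤ 10 ^ 8 by norm_num])
    (by
      refine hg.diff.mono fun w hw => ?_
      have hw' : ‖w - ζ₁‖ < 1 / q ^ 6 := by rwa [mem_ball, dist_eq_norm] at hw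
      have := hre (w - ζ₁) hw'
      simpa using this) hg1
    (by
      intro u hu
      have a1 := hup (ζ₁ + u) (hre u hu)
      have a2 : |u.re| ≤ 1 / q ^ 6 := (Complex.abs_re_le_norm u).trans hu.le
      have a3 := hgr u.re a2
      have a4 : (ζ₁ + u).re = t + u.re := by simp [hζt]
      rw [a4] at a1
      refine a1.trans ((Real.exp_le_exp.2 a3).trans ?_)
      have e1 : Real.exp (B t + q ^ 8 * u.re + 1 / q ^ 3) =
          Real.exp (B t) * (Real.exp (q ^ 8 * u.re + 1 / q ^ 3)) := by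
        rw [← Real.exp_add]; congr 1; ring
      have e2 : Real.exp (q ^ 8 * u.re + 2 / q ^ 3) =
          Real.exp (q ^ 8 * u.re + 1 / q ^ 3) * Real.exp (1 / q ^ 3) := by
        rw [← Real.exp_add]; congr 1; ring
      rw [e1, e2]
      have hx := Real.exp_pos (q ^ 8 * u.re + 1 / q ^ 3)
      have hy := Real.exp_pos (1 / q ^ 3)
      have hb := Real.exp_pos (B t)
      calc Real.exp (B t) * Real.exp (q ^ 8 * u.re + 1 / q ^ 3)
          ≤ Real.exp (B t) * Real.exp (q ^ 8 * u.re + 1 / q ^ 3) *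
              ((1 - 100 / q ^ 5) * Real.exp (1 / q ^ 3)) :=
            le_mul_of_one_le_right (mul_pos hb hx).le hn1
        _ = (Real.exp (B t) * (1 - 100 / q ^ 5)) *
              (Real.exp (q ^ 8 * u.re + 1 / q ^ 3) * Real.exp (1 / q ^ 3)) := by ring
        _ ≤ _ := mul_le_mul_of_nonneg_right hlow (mul_pos hx hy).le)
  have hder := deriv_loc hp hloc
  set b : ℂ := deriv p 0 with hb
  have hbn : ‖b‖ ≤ 32 * q ^ 3 := hp.b1 0 (by rw [norm_zero]; positivity)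
  set K : ℂ := (q : ℂ) ^ 8 with hK
  have hKn : ‖K‖ = q ^ 8 := by
    rw [hK, norm_pow, Complex.norm_real, Real.norm_of_nonneg hq0.le]
  have hKb : q ^ 8 - 32 * q ^ 3 ≤ ‖K + b‖ := by
    have := norm_sub_le (K + b) b
    rw [add_sub_cancel_right, hKn] at this
    linarith
  have hq8 : 0 < q ^ 8 := by positivity
  have hKbpos : 0 < ‖K + b‖ := by linarith
  have hKb0 : K + b ≠ 0 := norm_pos_iff.1 hKbpos
  -- the value of `hh` at the saddle point
  have hh1 : hh g ζ₁ = -(g ζ₁ * (K + b) * Complex.exp (-ζ₁)) := by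
    have := hder 0 (by rw [norm_zero]; positivity)
    rw [add_zero, mul_zero, Complex.exp_zero, hp.zero] at this
    unfold hh
    rw [this]; ring
  have hhne : hh g ζ₁ ≠ 0 := by
    rw [hh1]
    exact neg_ne_zero.2 (mul_ne_zero (mul_ne_zero hg1 hKb0) (Complex.exp_ne_zero _))
  set H : ℝ := (hh g ζ₁).re with hH
  have hHc : hh g ζ₁ = (H : ℂ) := by
    apply Complex.ext
    · simp [hH]
    · simp [hAl.1]
  have hHpos : 0 < H := by
    rcases lt_or_eq_of_le hAl.2 with h | h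
    · exact h
    · exfalso; apply hhne; rw [hHc, hH, ← h]; simp
  set X : ℝ := Real.sqrt (κ * H) with hX
  have hX2 : X ^ 2 = κ * H := Real.sq_sqrt (by positivity)
  have hXpos : 0 < X := Real.sqrt_pos.2 (by positivity)
  have hXc : (X : ℂ) ≠ 0 := by exact_mod_cast hXpos.ne'
  have hX2c : (X : ℂ) ^ 2 = -((κ : ℂ) * (g ζ₁ * (K + b) * Complex.exp (-ζ₁))) := by
    have : (X : ℂ) ^ 2 = (κ : ℂ) * (H : ℂ) := by exact_mod_cast hX2
    rw [this, ← hHc, hh1]; ring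
  have hHn : H = ‖g ζ₁‖ * ‖K + b‖ * Real.exp (-t) := by
    have : ‖hh g ζ₁‖ = H := by
      rw [hHc, Complex.norm_real, Real.norm_of_nonneg hHpos.le]
    rw [← this, hh1, norm_neg, norm_mul, norm_mul, Complex.norm_exp]
    simp [hζt]
  have hX2n : X ^ 2 = κ * (‖g ζ₁‖ * ‖K + b‖ * Real.exp (-t)) := by rw [hX2, hHn]
  -- lower bound for X
  have hXlow : q ^ 20 ≤ X := by
    have hbt : q ^ 100 ≤ Real.exp (B t) * Real.exp (-t) := by
      rw [← Real.exp_add]; exact hq100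
    have a1 : Real.exp (B t) / 2 ≤ ‖g ζ₁‖ := by
      refine le_trans ?_ hlow
      have := Real.exp_pos (B t)
      nlinarith
    have a2 : q ^ 8 / 2 ≤ ‖K + b‖ := by linarith
    have a3 : Real.exp (B t) / 2 * (q ^ 8 / 2) ≤ ‖g ζ₁‖ * ‖K + b‖ :=
      mul_le_mul a1 a2 (by positivity) (norm_nonneg _)
    have a4 : Real.exp (B t) / 2 * (q ^ 8 / 2) * Real.exp (-t) ≤
        ‖g ζ₁‖ * ‖K + b‖ * Real.exp (-t) :=
      mul_le_mul_of_nonneg_right a3 (Real.exp_pos _).le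
    have a5 : q ^ 100 * (q ^ 8 / 4) ≤ ‖g ζ₁‖ * ‖K + b‖ * Real.exp (-t) := by
      refine le_trans ?_ a4
      have : Real.exp (B t) / 2 * (q ^ 8 / 2) * Real.exp (-t) =
          (Real.exp (B t) * Real.exp (-t)) * (q ^ 8 / 4) := by ring
      rw [this]
      exact mul_le_mul_of_nonneg_right hbt (by positivity)
    have a6 : 4 ≤ κ * q := by
      have : 4 / κ ≤ q := by linarith
      rw [div_le_iff₀ hκ] at this
      linarith
    have a7 : q ^ 107 ≤ X ^ 2 := by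
      rw [hX2n]
      refine le_trans ?_ (mul_le_mul_of_nonneg_left a5 hκ.le)
      have : κ * (q ^ 100 * (q ^ 8 / 4)) = (κ * q) / 4 * q ^ 107 := by ring
      rw [this]
      exact le_mul_of_one_le_left (by positivity) (by linarith)
    have a8 : (q ^ 20) ^ 2 ≤ X ^ 2 := by
      refine le_trans ?_ a7
      rw [← pow_mul]
      exact pow_le_pow_right₀ hq1 (by norm_num)
    exact (pow_le_pow_iff_left₀ (by positivity) hXpos.le (by norm_num)).1 a8
  -- the function T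
  set T : ℝ → ℂ := fun v => -((κ : ℂ) * g (ζ₁ + (v : ℂ) * I)) / ((X : ℂ) * Complex.exp ζ₁) with hT
  have hline : ∀ v : ℝ, (ζ₁ + (v : ℂ) * I).re = t := by intro v; simp [hζt]
  have hTc : Continuous T := by
    have hgc : Continuous fun v : ℝ => g (ζ₁ + (v : ℂ) * I) := by
      have hco : ContinuousOn g {ζ : ℂ | t₀ < ζ.re} := hg.diff.continuousOn
      refine hco.comp_continuous (by fun_prop) fun v => ?_
      change t₀ < (ζ₁ + (v : ℂ) * I).re
      rw [hline v]; exact ht0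
    exact ((continuous_const.mul hgc).neg).div_const _
  have hsmall : ∀ v : ℝ, |v| ≤ 1 / (8 * q ^ 6) → ‖(v : ℂ) * I‖ < 1 / q ^ 6 := by
    intro v hv'
    rw [norm_mul, Complex.norm_I, mul_one, Complex.norm_real, Real.norm_eq_abs]
    refine lt_of_le_of_lt hv' ?_
    apply one_div_lt_one_div_of_lt (by positivity)
    have : 0 < q ^ 6 := by positivity
    linarith
  have hexpI : ∀ v : ℝ, Complex.exp (K * ((v : ℂ) * I)) =
      Complex.exp (((q ^ 8 * v : ℝ) : ℂ) * I) := by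
    intro v; congr 1; rw [hK]; push_cast; ring
  have hTT : ∀ y : ℝ, |y| ≤ 1 / (8 * q ^ 6) → T y = TT q X p y := by
    intro y hy
    have e1 := hloc _ (hsmall y hy)
    rw [hexpI y] at e1
    simp only [hT, TT]
    rw [e1, ← hK, ← hb]
    have hE : Complex.exp ζ₁ ≠ 0 := Complex.exp_ne_zero _
    have e2 : (X : ℂ) ^ 2 * Complex.exp ζ₁ = -((κ : ℂ) * (g ζ₁ * (K + b))) := by
      rw [hX2c, Complex.exp_neg]; field_simp
    rw [div_mul_eq_mul_div, div_eq_div_iff (mul_ne_zero hXc hE) hKb0]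
    linear_combination (-(Complex.exp (((q ^ 8 * y : ℝ) : ℂ) * I) * (1 + p ((y : ℂ) * I)))) * e2
  have hal : ∀ y : ℝ, |y| ≤ 1 / (8 * q ^ 6) → (wv q p y).im = 0 → 0 ≤ (wv q p y).re →
      ‖1 + p ((y : ℂ) * I)‖ ≤ 1 := by
    intro y hy him hrep
    have e1 := hloc _ (hsmall y hy)
    have e2 := hder _ (hsmall y hy)
    have e3 : hh g (ζ₁ + (y : ℂ) * I) = ((X ^ 2 / κ : ℝ) : ℂ) * wv q p y := by
      unfold hh wv
      rw [e2, ← hK, ← hb]
      have hκc : (κ : ℂ) ≠ 0 := by exact_mod_cast hκ.ne'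
      have e4 : Complex.exp (-(ζ₁ + (y : ℂ) * I)) = Complex.exp (-ζ₁) *
          Complex.exp (-((y : ℂ) * I)) := by rw [← Complex.exp_add]; congr 1; ring
      have e5 : Complex.exp ((((q ^ 8 - 1) * y : ℝ) : ℂ) * I) =
          Complex.exp (K * ((y : ℂ) * I)) * Complex.exp (-((y : ℂ) * I)) := by
        rw [← Complex.exp_add, hK]; congr 1; push_cast; ring
      have e6 : ((X ^ 2 / κ : ℝ) : ℂ) = -(g ζ₁ * (K + b) * Complex.exp (-ζ₁)) := by
        push_cast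
        rw [hX2c]; field_simp
      rw [e4, e5, e6]
      field_simp
    have hpos : 0 < X ^ 2 / κ := by positivity
    have hAl2 : Al g (ζ₁ + (y : ℂ) * I) := by
      unfold Al
      rw [e3, Complex.im_ofReal_mul, Complex.re_ofReal_mul, him, mul_zero]
      exact ⟨rfl, mul_nonneg hpos.le hrep⟩
    have hle := hmax _ (hline y) hAl2
    rw [e1, hexpI y, norm_mul, norm_mul, Complex.norm_exp_ofReal_mul_I, one_mul] at hle
    have : ‖g ζ₁‖ * ‖1 + p ((y : ℂ) * I)‖ ≤ ‖g ζ₁‖ * 1 := by linarith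
    exact le_of_mul_le_mul_left this hMpos
  have hbd : ∀ y : ℝ, |y| ≤ π → ‖T y‖ ≤ X / q ^ 8 * (1 + 1000 / q ^ 5) := by
    intro y _
    have a1 : ‖g (ζ₁ + (y : ℂ) * I)‖ ≤ Real.exp (B t) := by
      have := hup (ζ₁ + (y : ℂ) * I) (by rw [hline y]; exact ht0)
      rwa [hline y] at this
    have a2 : ‖T y‖ = κ * ‖g (ζ₁ + (y : ℂ) * I)‖ / (X * Real.exp t) := by
      simp only [hT]
      rw [norm_div, norm_neg, norm_mul, norm_mul, Complex.norm_exp, hζt, Complex.norm_real,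
        Complex.norm_real, Real.norm_of_nonneg hκ.le, Real.norm_of_nonneg hXpos.le]
    rw [a2]
    have hA : 0 < (1 - 100 / q ^ 5) * (q ^ 8 - 32 * q ^ 3) :=
      mul_pos (by linarith) (by linarith)
    -- X^2 ≥ κ e^{Bt} e^{-t} A
    have a3 : κ * (Real.exp (B t) * ((1 - 100 / q ^ 5) * (q ^ 8 - 32 * q ^ 3)) *
        Real.exp (-t)) ≤ X ^ 2 := by
      rw [hX2n]
      refine mul_le_mul_of_nonneg_left ?_ hκ.le
      refine mul_le_mul_of_nonneg_right ?_ (Real.exp_pos _).le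
      rw [← mul_assoc]
      exact mul_le_mul hlow hKb (by linarith) (norm_nonneg _)
    have a4 : κ * ‖g (ζ₁ + (y : ℂ) * I)‖ / (X * Real.exp t) ≤
        κ * Real.exp (B t) / (X * Real.exp t) :=
      div_le_div_of_nonneg_right (mul_le_mul_of_nonneg_left a1 hκ.le) (by positivity)
    refine a4.trans ?_
    have a5 : κ * Real.exp (B t) / (X * Real.exp t) ≤
        X * (1 / ((1 - 100 / q ^ 5) * (q ^ 8 - 32 * q ^ 3))) := by
      rw [mul_one_div, div_le_div_iff₀ (by positivity) hA]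
      have e1 : Real.exp (-t) * Real.exp t = 1 := by rw [← Real.exp_add]; simp
      have e2 := mul_le_mul_of_nonneg_right a3 (Real.exp_pos t).le
      calc κ * Real.exp (B t) * ((1 - 100 / q ^ 5) * (q ^ 8 - 32 * q ^ 3))
          = κ * (Real.exp (B t) * ((1 - 100 / q ^ 5) * (q ^ 8 - 32 * q ^ 3)) *
              Real.exp (-t)) * Real.exp t := by
            calc _ = κ * Real.exp (B t) * ((1 - 100 / q ^ 5) * (q ^ 8 - 32 * q ^ 3)) *
                  (Real.exp (-t) * Real.exp t) := by rw [e1, mul_one]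
              _ = _ := by ring
        _ ≤ X ^ 2 * Real.exp t := e2
        _ = X * (X * Real.exp t) := by ring
    refine a5.trans ?_
    have := mul_le_mul_of_nonneg_left hn4 hXpos.le
    calc X * (1 / ((1 - 100 / q ^ 5) * (q ^ 8 - 32 * q ^ 3)))
        ≤ X * (1 / q ^ 8 * (1 + 1000 / q ^ 5)) := this
      _ = X / q ^ 8 * (1 + 1000 / q ^ 5) := by ring
  have hsad := h5 q X p T hq hXlow hp hTc hTT hal hbd
  -- the contour integral
  have hs : (X : ℂ) * Complex.exp ζ₁ ≠ 0 := mul_ne_zero hXc (Complex.exp_ne_zero _)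
  have hvan := hv _ hs t (ζ₁.im - π) ht0
  have e1 : ζ₁.im - π = ζ₁.im + (-π) := by ring
  have e2 : ζ₁.im - π + 2 * π = ζ₁.im + π := by ring
  rw [e2, e1, ← intervalIntegral.integral_comp_add_left] at hvan
  have e3 : ∀ v : ℝ, (t : ℂ) + ((ζ₁.im + v : ℝ) : ℂ) * I = ζ₁ + (v : ℂ) * I := by
    intro v
    apply Complex.ext
    · simp [hζt]
    · simp
  have e4 : ∀ v : ℝ, Complex.exp ((X : ℂ) * Complex.exp ζ₁ *
      Complex.exp (-((t : ℂ) + ((ζ₁.im + v : ℝ) : ℂ) * I)) -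
      (κ : ℂ) * g ((t : ℂ) + ((ζ₁.im + v : ℝ) : ℂ) * I) / ((X : ℂ) * Complex.exp ζ₁)) *
      Complex.exp (-((t : ℂ) + ((ζ₁.im + v : ℝ) : ℂ) * I)) =
      Complex.exp (-ζ₁) * (Complex.exp ((X : ℂ) * Complex.exp (-((v : ℂ) * I)) + T v) *
      Complex.exp (-((v : ℂ) * I))) := by
    intro v
    rw [e3 v]
    have c1 : Complex.exp (-(ζ₁ + (v : ℂ) * I)) = Complex.exp (-ζ₁) *
        Complex.exp (-((v : ℂ) * I)) := by rw [← Complex.exp_add]; congr 1; ring
    have c2 : (X : ℂ) * Complex.exp ζ₁ * Complex.exp (-(ζ₁ + (v : ℂ) * I)) -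
        (κ : ℂ) * g (ζ₁ + (v : ℂ) * I) / ((X : ℂ) * Complex.exp ζ₁) =
        (X : ℂ) * Complex.exp (-((v : ℂ) * I)) + T v := by
      simp only [hT]
      have c3 : Complex.exp ζ₁ * Complex.exp (-(ζ₁ + (v : ℂ) * I)) =
          Complex.exp (-((v : ℂ) * I)) := by rw [← Complex.exp_add]; congr 1; ring
      rw [mul_assoc, c3, neg_div, sub_eq_add_neg]
    rw [c2, c1]; ring
  simp only [e4] at hvan
  rw [intervalIntegral.integral_const_mul] at hvan
  rcases mul_eq_zero.1 hvan with h | h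
  · exact Complex.exp_ne_zero _ h
  · exact hsad h

end Pool.Agent.Y244.LT
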